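import Mathlib
set_option autoImplicit false
open Cardinal

namespace Pool.Agent.Results.MP_1231ed_gt.NumberOfSquareRoots

/-- The squares `A²` and `B²`, each with the Euclidean product metric, are isometric. -/
def SquaresIsometric (A B : Type) [MetricSpace A] [MetricSpace B] : Prop :=
  ∃ φ : A × A ≃ B × B, ∀ p q : A × A,
    √(dist (φ p).1 (φ q).1 ^ 2 + dist (φ p).2 (φ q).2 ^ 2) =
      √(dist p.1 q.1 ^ 2 + dist p.2 q.2 ^ 2)

/-- `A` and `B` are isometric. -/
def Isometric (A B : Type) [MetricSpace A] [MetricSpace B] : Prop :=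
  ∃ φ : A ≃ B, ∀ x y : A, dist (φ x) (φ y) = dist x y

/-- The real Hilbert space `ℓ²(I)`. -/
abbrev L2 (I : Type) : Type := lp (fun _ : I => ℝ) 2

lemma sq_eq_of_sqrt {a b c d : ℝ} (h : √(a ^ 2 + b ^ 2) = √(c ^ 2 + d ^ 2)) :
    a ^ 2 + b ^ 2 = c ^ 2 + d ^ 2 := by
  have := congrArg (· ^ 2) h
  simpa only [Real.sq_sqrt (show (0:ℝ) ≤ a ^ 2 + b ^ 2 by positivity),
    Real.sq_sqrt (show (0:ℝ) ≤ c ^ 2 + d ^ 2 by positivity)] using this

lemma SquaresIsometric.symm {A B : Type} [MetricSpace A] [MetricSpace B]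
    (h : SquaresIsometric A B) : SquaresIsometric B A := by
  obtain ⟨φ, h⟩ := h
  refine ⟨φ.symm, fun p q => ?_⟩
  have := h (φ.symm p) (φ.symm q)
  simpa using this.symm

lemma SquaresIsometric.trans {A B C : Type} [MetricSpace A] [MetricSpace B] [MetricSpace C]
    (h : SquaresIsometric A B) (h' : SquaresIsometric B C) : SquaresIsometric A C := by
  obtain ⟨φ, h⟩ := h
  obtain ⟨ψ, h'⟩ := h'
  refine ⟨φ.trans ψ, fun p q => ?_⟩
  rw [← h p q]
  exact h' (φ p) (φ q)

/-- The nodes: an element `a` (the block) and a list. -/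
abbrev Nd (I : Type) : Type := I × List I

section tree

variable {I : Type} [LinearOrder I]

/-- the level of a node -/
def lev (s : Nd I) : ℕ := s.2.length

/-- the last element of the sequence -/
def tp (s : Nd I) : I := s.2.headD s.1

/-- the parent of a node, as a vector -/
noncomputable def Pb : Nd I → (Nd I →₀ ℚ)
  | (_, []) => 0
  | (a, b :: l) => if b < l.headD a then Finsupp.single (a, l) 1 else 0

/-- the parent operator -/
noncomputable def P : (Nd I →₀ ℚ) →ₗ[ℚ] (Nd I →₀ ℚ) := Finsupp.linearCombination ℚ Pb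

lemma Pb_ne (s' s : Nd I) (h : Pb s' s ≠ 0) : ∃ b, b < tp s ∧ s' = (s.1, b :: s.2) := by
  obtain ⟨a, l⟩ := s'
  cases l with
  | nil => exact absurd rfl h
  | cons b l =>
    simp only [Pb] at h
    split_ifs at h with hb
    · by_cases hs : (a, l) = s
      · subst hs
        exact ⟨b, hb, rfl⟩
      · rw [Finsupp.single_apply, if_neg hs] at h
        exact absurd rfl h
    · exact absurd rfl h

lemma P_apply (x : Nd I →₀ ℚ) (s : Nd I) : P x s = x.sum fun s' q => q * Pb s' s := by
  rw [P, Finsupp.linearCombination_apply, Finsupp.sum_apply]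
  rfl

lemma exists_child (x : Nd I →₀ ℚ) (s : Nd I) (h : P x s ≠ 0) :
    ∃ b, b < tp s ∧ x (s.1, b :: s.2) ≠ 0 := by
  rw [P_apply] at h
  obtain ⟨s', hs', h'⟩ := Finset.exists_ne_zero_of_sum_ne_zero h
  obtain ⟨b, hb, rfl⟩ := Pb_ne s' s (right_ne_zero_of_mul h')
  exact ⟨b, hb, left_ne_zero_of_mul h'⟩

lemma P_single (s : Nd I) (q : ℚ) : P (Finsupp.single s q) = q • Pb s := by
  rw [P, Finsupp.linearCombination_single]

noncomputable def raise (b : I) (x : Nd I →₀ ℚ) : Nd I →₀ ℚ :=
  x.mapDomain fun s => (s.1, b :: s.2)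

lemma raise_ne (b : I) (x : Nd I →₀ ℚ) (s : Nd I) (h : raise b x s ≠ 0) : tp s = b := by
  classical
  have h1 : s ∈ (raise b x).support := Finsupp.mem_support_iff.2 h
  have h2 := Finsupp.mapDomain_support h1
  obtain ⟨s', _, rfl⟩ := Finset.mem_image.1 h2
  rfl

lemma P_raise (b : I) (x : Nd I →₀ ℚ) (h : ∀ s ∈ x.support, b < tp s) : P (raise b x) = x := by
  rw [P, raise, Finsupp.linearCombination_mapDomain, Finsupp.linearCombination_apply]
  conv_rhs => rw [← Finsupp.sum_single x]
  refine Finsupp.sum_congr fun s hs => ?_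
  have := h s hs
  simp only [Function.comp, Pb]
  rw [if_pos (by exact this)]
  simp

/-- all the nodes in the support have last element at least `a` -/
def KK (a : I) (x : Nd I →₀ ℚ) : Prop := ∀ s ∈ x.support, a ≤ tp s

lemma KK_iff (a : I) (x : Nd I →₀ ℚ) : KK a x ↔ ∀ b, b < a → ∃ y, P y = x ∧ KK b y := by
  constructor
  · intro h b hb
    refine ⟨raise b x, P_raise b x fun s hs => hb.trans_le (h s hs), fun s hs => ?_⟩
    exact (raise_ne b x s (Finsupp.mem_support_iff.1 hs)).ge
  · intro h s hs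
    by_contra hlt
    obtain ⟨y, hy, hy'⟩ := h (tp s) (not_le.1 hlt)
    rw [← hy, Finsupp.mem_support_iff] at hs
    obtain ⟨b, hb, hb'⟩ := exists_child y s hs
    exact absurd (hy' _ (Finsupp.mem_support_iff.2 hb')) (not_le.2 hb)

lemma KK_iso [WellFoundedLT I] (f : (Nd I →₀ ℚ) → (Nd I →₀ ℚ)) (hinj : Function.Injective f)
    (hsurj : Function.Surjective f) (hP : ∀ y, P (f y) = f (P y)) (a : I) :
    ∀ x, KK a x ↔ KK a (f x) := by
  induction a using WellFoundedLT.induction with
  | ind a ih =>
    intro x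
    rw [KK_iff, KK_iff]
    constructor
    · intro h b hb
      obtain ⟨y, hy, hy'⟩ := h b hb
      exact ⟨f y, by rw [hP, hy], (ih b hb y).1 hy'⟩
    · intro h b hb
      obtain ⟨y, hy, hy'⟩ := h b hb
      obtain ⟨z, rfl⟩ := hsurj y
      refine ⟨z, hinj ?_, (ih b hb z).2 hy'⟩
      rw [← hP, hy]

/-- the form at level `n` -/
noncomputable def Af (w : I → ℚ) (n : ℕ) (x y : Nd I →₀ ℚ) : ℚ :=
  x.sum fun s q => if lev s = n then w s.1 * q * y s else 0

omit [LinearOrder I] in
lemma Af_eq (w : I → ℚ) (n : ℕ) (x y : Nd I →₀ ℚ) (F : Finset (Nd I)) (hF : x.support ⊆ F) :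
    Af w n x y = ∑ s ∈ F, if lev s = n then w s.1 * x s * y s else 0 :=
  Finsupp.sum_of_support_subset _ hF _ (by simp)

omit [LinearOrder I] in
lemma Af_self_eq_zero (w : I → ℚ) (hw : ∀ a, 0 < w a) (n : ℕ) (x : Nd I →₀ ℚ)
    (h : Af w n x x = 0) (s : Nd I) (hs : lev s = n) : x s = 0 := by
  by_contra hx
  have h1 := Finset.single_le_sum (s := x.support)
    (f := fun s => if lev s = n then w s.1 * x s * x s else 0)
    (fun s _ => by
      have := (hw s.1).le
      split_ifs
      · rw [mul_assoc]; exact mul_nonneg this (mul_self_nonneg _)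
      · exact le_rfl) (Finsupp.mem_support_iff.2 hx)
  rw [← Af_eq w n x x _ subset_rfl, h] at h1
  simp only [hs, if_true] at h1
  have := mul_pos (hw s.1) (mul_self_pos.2 hx)
  rw [mul_assoc] at h1
  linarith

omit [LinearOrder I] in
lemma Af_polar (w : I → ℚ) (n : ℕ) (x y : Nd I →₀ ℚ) :
    2 * Af w n x y = Af w n x x + Af w n y y - Af w n (x - y) (x - y) := by
  classical
  have e1 : x.support ⊆ x.support ∪ y.support := Finset.subset_union_left
  have e2 : y.support ⊆ x.support ∪ y.support := Finset.subset_union_right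
  have e3 : (x - y).support ⊆ x.support ∪ y.support := Finsupp.support_sub
  rw [Af_eq w n x y _ e1, Af_eq w n x x _ e1, Af_eq w n y y _ e2, Af_eq w n _ _ _ e3,
    Finset.mul_sum, ← Finset.sum_add_distrib, ← Finset.sum_sub_distrib]
  refine Finset.sum_congr rfl fun s _ => ?_
  rw [Finsupp.sub_apply]
  split_ifs <;> ring

lemma Af_polar' (w : I → ℚ) (n : ℕ) (x y : Nd I →₀ ℚ) (hx : ∀ s ∈ x.support, lev s = n) :
    Af w n x (P y) = Af w n x (P x) + Af w n y (P y) - Af w n (x - y) (P (x - y)) := by
  classical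
  have e1 : x.support ⊆ x.support ∪ y.support := Finset.subset_union_left
  have e2 : y.support ⊆ x.support ∪ y.support := Finset.subset_union_right
  have e3 : (x - y).support ⊆ x.support ∪ y.support := Finsupp.support_sub
  rw [Af_eq w n x _ _ e1, Af_eq w n x _ _ e1, Af_eq w n y _ _ e2, Af_eq w n _ _ _ e3,
    ← Finset.sum_add_distrib, ← Finset.sum_sub_distrib]
  refine Finset.sum_congr rfl fun s _ => ?_
  rw [Finsupp.sub_apply, map_sub, Finsupp.sub_apply]
  split_ifs with h
  · have h0 : P x s = 0 := by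
      by_contra h0
      obtain ⟨b, _, hb⟩ := exists_child x s h0
      have := hx _ (Finsupp.mem_support_iff.2 hb)
      simp only [lev, List.length_cons] at this h
      omega
    rw [h0]
    ring
  · ring

open Polynomial in
/-- the polynomial valued form -/
noncomputable def pol (w : I → ℚ) (x : Nd I →₀ ℚ) : ℚ[X] :=
  ∑ s ∈ x.support ∪ (P x).support,
    (monomial (3 * lev s) (w s.1 * x s * x s) +
     monomial (3 * lev s + 1) (2 * (w s.1 * x s * P x s)) +
     monomial (3 * lev s + 2) (w s.1 * P x s ^ 2))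

lemma pol_coeff0 (w : I → ℚ) (x : Nd I →₀ ℚ) (n : ℕ) :
    (pol w x).coeff (3 * n) = Af w n x x := by
  classical
  rw [pol, Af_eq w n x x (x.support ∪ (P x).support) Finset.subset_union_left,
    Polynomial.finsetSum_coeff]
  refine Finset.sum_congr rfl fun s _ => ?_
  simp only [Polynomial.coeff_add, Polynomial.coeff_monomial]
  rw [if_neg (by omega : ¬ 3 * lev s + 1 = 3 * n), if_neg (by omega : ¬ 3 * lev s + 2 = 3 * n),
    add_zero, add_zero]
  congr 1
  exact propext ⟨fun h => by omega, fun h => by omega⟩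

lemma pol_coeff1 (w : I → ℚ) (x : Nd I →₀ ℚ) (n : ℕ) :
    (pol w x).coeff (3 * n + 1) = 2 * Af w n x (P x) := by
  classical
  rw [pol, Af_eq w n x (P x) (x.support ∪ (P x).support) Finset.subset_union_left,
    Polynomial.finsetSum_coeff, Finset.mul_sum]
  refine Finset.sum_congr rfl fun s _ => ?_
  simp only [Polynomial.coeff_add, Polynomial.coeff_monomial]
  rw [if_neg (by omega : ¬ 3 * lev s = 3 * n + 1), if_neg (by omega : ¬ 3 * lev s + 2 = 3 * n + 1),
    zero_add, add_zero, mul_ite, mul_zero]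
  congr 1
  exact propext ⟨fun h => by omega, fun h => by omega⟩

lemma rat_sq_ne_half (h : ℚ) : 2 * h ^ 2 ≠ 1 := by
  intro h2
  have h3 : ((2 * h : ℚ) : ℝ) ^ 2 = 2 := by
    have : ((2 * h) ^ 2 : ℚ) = 2 := by nlinarith
    exact_mod_cast this
  have h4 : √2 = |((2 * h : ℚ) : ℝ)| := by
    rw [← h3, Real.sqrt_sq_eq_abs]
  refine irrational_sqrt_two ⟨|2 * h|, ?_⟩
  rw [h4, Rat.cast_abs]

/-- the rigidity statement -/
lemma rigid [WellFoundedLT I] (w w' : I → ℚ) (hw : ∀ a, 0 < w a) (hw' : ∀ a, 0 < w' a)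
    (f : (Nd I →₀ ℚ) → (Nd I →₀ ℚ)) (hsurj : Function.Surjective f) (h0 : f 0 = 0)
    (hf : ∀ x y, pol w' (f x - f y) = pol w (x - y)) (a : I) : ∃ r : ℚ, w' a * r ^ 2 = w a := by
  have hA1 : ∀ n x y, Af w' n (f x - f y) (f x - f y) = Af w n (x - y) (x - y) := by
    intro n x y
    rw [← pol_coeff0, ← pol_coeff0, hf]
  have hA2 : ∀ n x y, Af w' n (f x - f y) (P (f x - f y)) = Af w n (x - y) (P (x - y)) := by
    intro n x y
    have := congrArg (fun p => p.coeff (3 * n + 1)) (hf x y)
    simp only [pol_coeff1] at this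
    linarith
  have hB1 : ∀ n x, Af w' n (f x) (f x) = Af w n x x := by
    intro n x
    have := hA1 n x 0
    simpa only [h0, sub_zero] using this
  have hB2 : ∀ n x, Af w' n (f x) (P (f x)) = Af w n x (P x) := by
    intro n x
    have := hA2 n x 0
    simpa only [h0, sub_zero] using this
  have hC : ∀ n x y, Af w' n (f x) (f y) = Af w n x y := by
    intro n x y
    have h1 := Af_polar w' n (f x) (f y)
    have h2 := Af_polar w n x y
    rw [hB1, hB1, hA1] at h1
    linarith
  have hzero : ∀ x, (∀ n, Af w n x x = 0) → x = 0 := by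
    intro x h
    ext s
    exact Af_self_eq_zero w hw _ x (h (lev s)) s rfl
  have hinj : Function.Injective f := by
    intro x y h
    have : x - y = 0 := hzero _ fun n => by
      rw [← hA1, h, sub_self]
      simp [Af]
    exact sub_eq_zero.1 this
  -- levels
  have hlev0 : ∀ (w : I → ℚ), (∀ a, 0 < w a) → ∀ (n : ℕ) (x : Nd I →₀ ℚ),
      (∀ s ∈ x.support, lev s = n) ↔ ∀ m, m ≠ n → Af w m x x = 0 := by
    intro w hw n x
    constructor
    · intro h m hm
      rw [Af_eq w m x x _ subset_rfl]
      refine Finset.sum_eq_zero fun s hs => ?_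
      rw [if_neg]
      rw [h s hs]
      exact hm.symm
    · intro h s hs
      by_contra hne
      exact (Finsupp.mem_support_iff.1 hs) (Af_self_eq_zero w hw _ x (h _ hne) s rfl)
  have hlev : ∀ n x, (∀ s ∈ x.support, lev s = n) ↔ (∀ s ∈ (f x).support, lev s = n) := by
    intro n x
    rw [hlev0 w hw, hlev0 w' hw']
    simp only [hB1]
  -- commutation
  have hP : ∀ y, P (f y) = f (P y) := by
    intro y
    classical
    rw [← sub_eq_zero]
    ext s
    set d := P (f y) - f (P y) with hd
    set z := d.filter (fun s' => lev s' = lev s) with hz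
    obtain ⟨x, hx⟩ := hsurj z
    have hzl : ∀ s' ∈ z.support, lev s' = lev s := by
      intro s' hs'
      rw [hz, Finsupp.support_filter, Finset.mem_filter] at hs'
      exact hs'.2
    have hxl : ∀ s' ∈ x.support, lev s' = lev s := (hlev _ x).2 (by rw [hx]; exact hzl)
    have h1 : Af w' (lev s) (f x) (P (f y)) = Af w (lev s) x (P y) := by
      rw [Af_polar' w' _ _ _ (by rw [hx]; exact hzl), Af_polar' w _ _ _ hxl, hB2, hB2, hA2]
    have h2 : Af w' (lev s) (f x) (f (P y)) = Af w (lev s) x (P y) := hC _ _ _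
    rw [hx] at h1 h2
    have h3 : Af w' (lev s) z z = 0 := by
      have h4 : Af w' (lev s) z z = Af w' (lev s) z (P (f y)) - Af w' (lev s) z (f (P y)) := by
        rw [Af_eq w' _ z z _ subset_rfl, Af_eq w' _ z _ _ subset_rfl, Af_eq w' _ z _ _ subset_rfl,
          ← Finset.sum_sub_distrib]
        refine Finset.sum_congr rfl fun s' _ => ?_
        split_ifs with h
        · have : z s' = P (f y) s' - f (P y) s' := by
            rw [hz, Finsupp.filter_apply_pos (fun s' => lev s' = lev s) _ h, hd, Finsupp.sub_apply]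
          rw [this]; ring
        · ring
      rw [h4, h1, h2, sub_self]
    have h5 := Af_self_eq_zero w' hw' _ z h3 s rfl
    rw [hz, Finsupp.filter_apply_pos (fun s' => lev s' = lev s) _ rfl] at h5
    rw [h5]; rfl
  have hK := KK_iso f hinj hsurj hP
  -- the canonical line
  set x : Nd I →₀ ℚ := Finsupp.single (a, []) 1 with hx
  have hxs : x.support = {(a, [])} := Finsupp.support_single _ one_ne_zero
  have hzl : ∀ s ∈ (f x).support, lev s = 0 := (hlev 0 x).1 (by
    intro s hs
    rw [hxs, Finset.mem_singleton] at hs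
    rw [hs]; rfl)
  have hzK : KK a (f x) := (hK a x).1 (by
    intro s hs
    rw [hxs, Finset.mem_singleton] at hs
    rw [hs]; exact le_rfl)
  have hsup : ∀ s ∈ (f x).support, s = (a, []) := by
    intro s hs
    by_contra hne
    obtain ⟨b, l⟩ := s
    have hl := hzl _ hs
    have hl' : l = [] := List.length_eq_zero_iff.1 hl
    subst hl'
    have hab : a ≤ b := hzK _ hs
    have hne' : a ≠ b := fun h => hne (by rw [h])
    have hlt : a < b := lt_of_le_of_ne hab hne'
    set u : Nd I →₀ ℚ := Finsupp.single (b, []) 1 with hu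
    have hus : u.support = {(b, [])} := Finsupp.support_single _ one_ne_zero
    obtain ⟨v, hv⟩ := hsurj u
    have hvK : KK b v := (hK b v).2 (by
      rw [hv]
      intro s hs
      rw [hus, Finset.mem_singleton] at hs
      rw [hs]; exact le_rfl)
    have h1 := hC 0 x v
    have h2 : Af w 0 x v = 0 := by
      rw [Af_eq w 0 x v _ subset_rfl, hxs, Finset.sum_singleton]
      have : v (a, []) = 0 := by
        by_contra hva
        exact absurd (hvK _ (Finsupp.mem_support_iff.2 hva)) (not_le.2 hlt)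
      rw [this, mul_zero, ite_self]
    rw [hv, h2, Af_eq w' 0 _ _ _ subset_rfl, Finset.sum_eq_single (b, [])] at h1
    · rw [if_pos (show lev ((b, []) : Nd I) = 0 from rfl), hu, Finsupp.single_eq_same, mul_one] at h1
      exact (mul_ne_zero (hw' b).ne' (Finsupp.mem_support_iff.1 hs)) h1
    · intro s _ hs
      rw [hu, Finsupp.single_eq_of_ne (Ne.symm ?_), mul_zero, ite_self]
      exact fun h => hs h.symm
    · intro h
      exact absurd hs h
  refine ⟨f x (a, []), ?_⟩
  have h1 := hB1 0 x
  have h2 : Af w 0 x x = w a := by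
    rw [Af_eq w 0 x x _ subset_rfl, hxs, Finset.sum_singleton,
      if_pos (show lev ((a, []) : Nd I) = 0 from rfl), hx, Finsupp.single_eq_same, mul_one, mul_one]
  rw [h2, Af_eq w' 0 _ _ {(a, [])} (fun s hs => Finset.mem_singleton.2 (hsup s hs)),
    Finset.sum_singleton, if_pos (show lev ((a, []) : Nd I) = 0 from rfl)] at h1
  rw [← h1]; ring

end tree

section uv

variable {I : Type}
open Classical

noncomputable def UU (S : Set I) (f g : I →₀ ℚ) : I →₀ ℚ := f + g.filter (· ∉ S)
noncomputable def VV (S : Set I) (f g : I →₀ ℚ) : I →₀ ℚ :=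
  g.filter (· ∈ S) + (f - g).filter (· ∉ S)
noncomputable def XX (S : Set I) (f g : I →₀ ℚ) : I →₀ ℚ :=
  f.filter (· ∈ S) + ((1 / 2 : ℚ) • (f + g)).filter (· ∉ S)
noncomputable def YY (S : Set I) (f g : I →₀ ℚ) : I →₀ ℚ :=
  g.filter (· ∈ S) + ((1 / 2 : ℚ) • (f - g)).filter (· ∉ S)

lemma UU_apply (S : Set I) (f g : I →₀ ℚ) (i : I) :
    UU S f g i = if i ∈ S then f i else f i + g i := by
  by_cases h : i ∈ S <;> simp [UU, h]

lemma VV_apply (S : Set I) (f g : I →₀ ℚ) (i : I) :
    VV S f g i = if i ∈ S then g i else f i - g i := by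
  by_cases h : i ∈ S <;> simp [VV, h]

lemma XX_apply (S : Set I) (f g : I →₀ ℚ) (i : I) :
    XX S f g i = if i ∈ S then f i else (1 / 2) * (f i + g i) := by
  by_cases h : i ∈ S
  · simp [XX, h]
  · simp [XX, h]; ring

lemma YY_apply (S : Set I) (f g : I →₀ ℚ) (i : I) :
    YY S f g i = if i ∈ S then g i else (1 / 2) * (f i - g i) := by
  by_cases h : i ∈ S
  · simp [YY, h]
  · simp [YY, h]

noncomputable def rot (S : Set I) : (I →₀ ℚ) × (I →₀ ℚ) ≃ (I →₀ ℚ) × (I →₀ ℚ) where
  toFun p := (UU S p.1 p.2, VV S p.1 p.2)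
  invFun p := (XX S p.1 p.2, YY S p.1 p.2)
  left_inv p := by
    ext i
    · simp only [XX_apply, UU_apply, VV_apply]
      split_ifs <;> ring
    · simp only [YY_apply, UU_apply, VV_apply]
      split_ifs <;> ring
  right_inv p := by
    ext i
    · simp only [XX_apply, YY_apply, UU_apply]
      split_ifs <;> ring
    · simp only [XX_apply, YY_apply, VV_apply]
      split_ifs <;> ring


end uv

section embed

variable {I : Type}
open Classical

/-- the finitely supported real vectors in `ℓ²(I)` -/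
noncomputable def toL2 : (I →₀ ℝ) →+ L2 I :=
  Finsupp.liftAddHom fun i => lp.singleAddMonoidHom (E := fun _ : I => ℝ) 2 i

lemma toL2_apply (f : I →₀ ℝ) :
    toL2 f = ∑ i ∈ f.support, lp.single (E := fun _ : I => ℝ) 2 i (f i) := rfl

lemma toL2_single (i : I) (r : ℝ) :
    toL2 (Finsupp.single i r) = lp.single (E := fun _ : I => ℝ) 2 i r := by
  rw [toL2, Finsupp.liftAddHom_apply_single]
  rfl

lemma norm_toL2 (f : I →₀ ℝ) (s : Finset I) (hs : f.support ⊆ s) :
    ‖toL2 f‖ ^ 2 = ∑ i ∈ s, f i ^ 2 := by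
  have h := lp.norm_sum_single (E := fun _ : I => ℝ) (p := 2) (by norm_num)
    (fun i => f i) f.support
  rw [← toL2_apply] at h
  simp only [ENNReal.toReal_ofNat, Real.rpow_two] at h
  rw [h, ← Finset.sum_subset hs (f := fun i => f i ^ 2)]
  · refine Finset.sum_congr rfl fun i _ => ?_
    rw [Real.norm_eq_abs, sq_abs]
  · intro i _ hi
    rw [Finsupp.notMem_support_iff.1 hi]
    simp

lemma smul_toL2_single (a : ℝ) (i : I) (r : ℝ) :
    a • toL2 (Finsupp.single i r) = toL2 (Finsupp.single i (a * r)) := by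
  rw [toL2_single, toL2_single, ← lp.single_smul, smul_eq_mul]

lemma mem_of_singles (G : AddSubgroup (L2 I)) (h : ∀ i r, toL2 (Finsupp.single i r) ∈
    G.topologicalClosure) : Dense (G : Set (L2 I)) := by
  intro x
  have hs := lp.hasSum_single (E := fun _ : I => ℝ) (p := 2) (by norm_num) x
  refine G.isClosed_topologicalClosure.mem_of_tendsto hs ?_
  refine Filter.Eventually.of_forall fun s => sum_mem fun i _ => ?_
  have := h i (x i)
  rwa [toL2_single] at this

variable [LinearOrder I]

lemma P_filter (p : Nd I → Prop) [DecidablePred p] (hp : ∀ a l l', p (a, l) → p (a, l')) (x : Nd I →₀ ℚ) :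
    P (x.filter p) = (P x).filter p := by
  induction x using Finsupp.induction_linear with
  | zero => rw [Finsupp.filter_zero, map_zero, Finsupp.filter_zero]
  | add x y hx hy => rw [Finsupp.filter_add, map_add, map_add, Finsupp.filter_add, hx, hy]
  | single s q =>
    have hs : ∀ s', Pb s s' ≠ 0 → (p s ↔ p s') := by
      intro s' h
      obtain ⟨b, _, rfl⟩ := Pb_ne s s' h
      exact ⟨hp _ _ _, hp _ _ _⟩
    by_cases h : p s
    · rw [Finsupp.filter_single_of_pos p h, eq_comm, Finsupp.filter_eq_self_iff, P_single]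
      intro s' hs'
      rw [Finsupp.smul_apply, smul_eq_mul] at hs'
      exact (hs s' (right_ne_zero_of_mul hs')).1 h
    · rw [Finsupp.filter_single_of_neg p h, map_zero, eq_comm, Finsupp.filter_eq_zero_iff, P_single]
      intro s' hs'
      rw [Finsupp.smul_apply, smul_eq_mul]
      by_contra h0
      exact h ((hs s' (right_ne_zero_of_mul h0)).2 hs')

noncomputable def vec (e : Nd I ≃ I) (c : Nd I → ℝ) (t : ℝ) : (Nd I →₀ ℚ) →+ (I →₀ ℝ) where
  toFun x := Finsupp.onFinset ((x.support ∪ (P x).support).map e.toEmbedding)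
    (fun i => c (e.symm i) * ((x (e.symm i) : ℝ) + t * (P x (e.symm i) : ℝ))) (by
      intro i hi
      rw [Finset.mem_map_equiv, Finset.mem_union, Finsupp.mem_support_iff,
        Finsupp.mem_support_iff]
      by_contra h
      push Not at h
      apply hi
      rw [h.1, h.2]; simp)
  map_zero' := by ext i; simp
  map_add' x y := by ext i; simp; ring

lemma vec_apply (e : Nd I ≃ I) (c : Nd I → ℝ) (t : ℝ) (x : Nd I →₀ ℚ) (i : I) :
    vec e c t x i = c (e.symm i) * ((x (e.symm i) : ℝ) + t * (P x (e.symm i) : ℝ)) := rfl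

/-- the embedding -/
noncomputable def emb (e : Nd I ≃ I) (c : Nd I → ℝ) (t : ℝ) : (Nd I →₀ ℚ) →+ L2 I :=
  toL2.comp (vec e c t)

lemma norm_emb (e : Nd I ≃ I) (c : Nd I → ℝ) (t : ℝ) (x : Nd I →₀ ℚ) (F : Finset (Nd I))
    (hF : x.support ∪ (P x).support ⊆ F) :
    ‖emb e c t x‖ ^ 2 = ∑ s ∈ F, c s ^ 2 * ((x s : ℝ) + t * (P x s : ℝ)) ^ 2 := by
  have h : (vec e c t x).support ⊆ F.map e.toEmbedding := by
    intro i hi
    rw [Finset.mem_map_equiv]
    apply hF
    rw [Finset.mem_union, Finsupp.mem_support_iff, Finsupp.mem_support_iff]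
    by_contra h
    push Not at h
    rw [Finsupp.mem_support_iff, vec_apply, h.1, h.2] at hi
    simp at hi
  rw [emb, AddMonoidHom.comp_apply, norm_toL2 _ _ h, Finset.sum_map]
  refine Finset.sum_congr rfl fun s _ => ?_
  rw [vec_apply]
  simp only [Equiv.coe_toEmbedding, Equiv.symm_apply_apply]
  ring

lemma emb_injective (e : Nd I ≃ I) (c : Nd I → ℝ) (hc : ∀ s, c s ≠ 0) (t : ℝ)
    (ht : Irrational t) : Function.Injective (emb e c t) := by
  rw [injective_iff_map_eq_zero]
  intro x hx
  have h := norm_emb e c t x _ subset_rfl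
  rw [hx, norm_zero] at h
  ext s
  by_contra hs
  have h1 : c s ^ 2 * ((x s : ℝ) + t * (P x s : ℝ)) ^ 2 ≤ 0 := by
    have := Finset.single_le_sum
      (f := fun s => c s ^ 2 * ((x s : ℝ) + t * (P x s : ℝ)) ^ 2)
      (s := x.support ∪ (P x).support)
      (fun i _ => by positivity)
      (Finset.mem_union_left _ (Finsupp.mem_support_iff.2 hs))
    linarith
  have h2 : (x s : ℝ) + t * (P x s : ℝ) = 0 := by
    by_contra h2
    have := hc s
    have : 0 < c s ^ 2 * ((x s : ℝ) + t * (P x s : ℝ)) ^ 2 := by positivity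
    linarith
  by_cases h3 : P x s = 0
  · rw [h3, Rat.cast_zero, mul_zero, add_zero] at h2
    exact hs (by exact_mod_cast h2)
  · refine ht ⟨- x s / P x s, ?_⟩
    have h3' : ((P x s : ℚ) : ℝ) ≠ 0 := by exact_mod_cast h3
    push_cast
    field_simp
    linarith

lemma Pb_cases (s : Nd I) : Pb s = 0 ∨ ∃ s', lev s' < lev s ∧ Pb s = Finsupp.single s' 1 := by
  obtain ⟨a, l⟩ := s
  cases l with
  | nil => exact Or.inl rfl
  | cons b l =>
    simp only [Pb]
    split_ifs
    · exact Or.inr ⟨(a, l), by simp [lev], rfl⟩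
    · exact Or.inl rfl

lemma emb_dense (e : Nd I ≃ I) (c : Nd I → ℝ) (hc : ∀ s, c s ≠ 0) (t : ℝ) :
    Dense ((emb e c t).range : Set (L2 I)) := by
  set K := (emb e c t).range.topologicalClosure with hK
  have hreal : ∀ (x : Nd I →₀ ℚ) (r : ℝ), r • emb e c t x ∈ K := by
    intro x r
    have hcl : IsClosed {r : ℝ | r • emb e c t x ∈ K} :=
      (emb e c t).range.isClosed_topologicalClosure.preimage (by fun_prop)
    have hsub : Set.range (fun q : ℚ => (q : ℝ)) ⊆ {r : ℝ | r • emb e c t x ∈ K} := by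
      rintro _ ⟨q, rfl⟩
      refine (emb e c t).range.le_topologicalClosure ⟨q • x, ?_⟩
      have : ((q : ℝ) • emb e c t x : L2 I) = q • emb e c t x := by
        exact (Rat.cast_smul_eq_qsmul ℝ q _)
      rw [this]
      exact map_rat_smul (emb e c t) q x
    have : (Set.univ : Set ℝ) ⊆ {r : ℝ | r • emb e c t x ∈ K} := by
      rw [← Rat.denseRange_cast.closure_range]
      exact closure_minimal hsub hcl
    exact this (Set.mem_univ r)
  have h1 : ∀ n s, lev s = n → ∀ r : ℝ, toL2 (Finsupp.single (e s) r) ∈ K := by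
    intro n
    induction n using Nat.strong_induction_on with
    | _ n ih =>
      intro s hs r
      have h2 := hreal (Finsupp.single s 1) (r / c s)
      rcases Pb_cases s with h0 | ⟨s', hs', h0⟩
      · have h3 : vec e c t (Finsupp.single s 1) = Finsupp.single (e s) (c s) := by
          ext i
          rw [vec_apply, P_single, h0, smul_zero, Finsupp.single_apply, Finsupp.single_apply]
          by_cases hi : e s = i
          · subst hi; simp
          · rw [if_neg hi, if_neg (fun h => hi (by rw [h]; simp))]; simp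
        rw [emb, AddMonoidHom.comp_apply, h3, smul_toL2_single, div_mul_cancel₀ _ (hc s)] at h2
        exact h2
      · have h3 : vec e c t (Finsupp.single s 1) =
            Finsupp.single (e s) (c s) + Finsupp.single (e s') (c s' * t) := by
          ext i
          rw [vec_apply, P_single, h0, one_smul, Finsupp.add_apply, Finsupp.single_apply,
            Finsupp.single_apply, Finsupp.single_apply, Finsupp.single_apply]
          have g1 : (s = e.symm i) ↔ e s = i := by rw [Equiv.eq_symm_apply]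
          have g2 : (s' = e.symm i) ↔ e s' = i := by rw [Equiv.eq_symm_apply]
          by_cases hi : s = e.symm i
          · by_cases hi' : s' = e.symm i
            · exact absurd (hi'.trans hi.symm) (fun h => by rw [h] at hs'; exact lt_irrefl _ hs')
            · rw [if_pos hi, if_neg hi', if_pos (g1.1 hi), if_neg (fun h => hi' (g2.2 h)), ← hi]
              simp
          · by_cases hi' : s' = e.symm i
            · rw [if_neg hi, if_pos hi', if_neg (fun h => hi (g1.2 h)), if_pos (g2.1 hi'), ← hi']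
              simp
            · rw [if_neg hi, if_neg hi', if_neg (fun h => hi (g1.2 h)),
                if_neg (fun h => hi' (g2.2 h))]
              simp
        rw [emb, AddMonoidHom.comp_apply, h3, map_add, smul_add, smul_toL2_single,
          smul_toL2_single, div_mul_cancel₀ _ (hc s)] at h2
        have h4 := K.sub_mem h2 (ih (lev s') (hs ▸ hs') s' rfl (r / c s * (c s' * t)))
        rwa [add_sub_cancel_right] at h4
  refine mem_of_singles _ fun i r => ?_
  have := h1 _ (e.symm i) rfl r
  rwa [Equiv.apply_symm_apply] at this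

/-- the rational weights -/
noncomputable def ww (S : Set I) (a : I) : ℚ := if a ∈ S then 1 else 2

omit [LinearOrder I] in
lemma ww_pos (S : Set I) (a : I) : 0 < ww S a := by
  unfold ww; split_ifs <;> norm_num

/-- the scaling factors -/
noncomputable def fac (t : ℝ) (S : Set I) (s : Nd I) : ℝ := √((ww S s.1 : ℝ) * t ^ (3 * lev s))

omit [LinearOrder I] in
lemma fac_sq (t : ℝ) (ht : 0 < t) (S : Set I) (s : Nd I) :
    fac t S s ^ 2 = (ww S s.1 : ℝ) * t ^ (3 * lev s) := by
  have : (0 : ℝ) < ww S s.1 := by exact_mod_cast ww_pos S s.1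
  exact Real.sq_sqrt (by positivity)

omit [LinearOrder I] in
lemma fac_ne (t : ℝ) (ht : 0 < t) (S : Set I) (s : Nd I) : fac t S s ≠ 0 := by
  have : (0 : ℝ) < ww S s.1 := by exact_mod_cast ww_pos S s.1
  unfold fac
  positivity

/-- the spaces -/
noncomputable def Sp (e : Nd I ≃ I) (t : ℝ) (S : Set I) : AddSubgroup (L2 I) :=
  (emb e (fac t S) t).range

noncomputable def par (e : Nd I ≃ I) (t : ℝ) (ht : 0 < t) (ht' : Irrational t) (S : Set I) :
    (Nd I →₀ ℚ) ≃ Sp e t S :=
  (AddMonoidHom.ofInjective (emb_injective e (fac t S) (fac_ne t ht S) t ht')).toEquiv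

lemma par_dist (e : Nd I ≃ I) (t : ℝ) (ht : 0 < t) (ht' : Irrational t) (S : Set I)
    (x y : Nd I →₀ ℚ) (F : Finset (Nd I)) (hF : (x - y).support ∪ (P (x - y)).support ⊆ F) :
    dist (par e t ht ht' S x) (par e t ht ht' S y) ^ 2 =
      ∑ s ∈ F, (ww S s.1 : ℝ) * t ^ (3 * lev s) *
        (((x - y) s : ℝ) + t * (P (x - y) s : ℝ)) ^ 2 := by
  have h1 : dist (par e t ht ht' S x) (par e t ht ht' S y) = ‖emb e (fac t S) t (x - y)‖ := by
    rw [map_sub, ← dist_eq_norm]
    rfl
  rw [h1, norm_emb e _ t _ F hF]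
  refine Finset.sum_congr rfl fun s _ => ?_
  rw [fac_sq t ht]

lemma par_dist_pol (e : Nd I ≃ I) (t : ℝ) (ht : 0 < t) (ht' : Irrational t) (S : Set I)
    (x y : Nd I →₀ ℚ) :
    dist (par e t ht ht' S x) (par e t ht ht' S y) ^ 2 =
      Polynomial.aeval t (pol (ww S) (x - y)) := by
  rw [par_dist e t ht ht' S x y _ subset_rfl, pol, map_sum]
  refine Finset.sum_congr (by congr) fun s _ => ?_
  simp only [map_add, Polynomial.aeval_monomial, eq_ratCast]
  push_cast
  ring

/-- the nodes in the blocks of `S` -/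
def blk (S : Set I) : Set (Nd I) := {s | s.1 ∈ S}

lemma P_UU (S : Set I) (x y : Nd I →₀ ℚ) :
    P (UU (blk S) x y) = UU (blk S) (P x) (P y) := by
  rw [UU, UU, map_add, P_filter _ (fun _ _ _ h => h)]

lemma P_VV (S : Set I) (x y : Nd I →₀ ℚ) :
    P (VV (blk S) x y) = VV (blk S) (P x) (P y) := by
  rw [VV, VV, map_add, P_filter _ (fun _ _ _ h => h), P_filter _ (fun _ _ _ h => h), map_sub]

omit [LinearOrder I] in
lemma UU_sub (S : Set (Nd I)) (x y x' y' : Nd I →₀ ℚ) :
    UU S x y - UU S x' y' = UU S (x - x') (y - y') := by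
  ext s
  simp only [Finsupp.sub_apply, UU_apply]
  split_ifs <;> ring

omit [LinearOrder I] in
lemma VV_sub (S : Set (Nd I)) (x y x' y' : Nd I →₀ ℚ) :
    VV S x y - VV S x' y' = VV S (x - x') (y - y') := by
  ext s
  simp only [Finsupp.sub_apply, VV_apply]
  split_ifs <;> ring

lemma squares_base (e : Nd I ≃ I) (t : ℝ) (ht : 0 < t) (ht' : Irrational t) (S : Set I) :
    SquaresIsometric (Sp e t S) (Sp e t Set.univ) := by
  refine ⟨((par e t ht ht' S).prodCongr (par e t ht ht' S)).symm.trans
    ((rot (blk S)).trans ((par e t ht ht' Set.univ).prodCongr (par e t ht ht' Set.univ))), ?_⟩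
  rintro ⟨x, y⟩ ⟨x', y'⟩
  obtain ⟨f, rfl⟩ := (par e t ht ht' S).surjective x
  obtain ⟨g, rfl⟩ := (par e t ht ht' S).surjective y
  obtain ⟨f', rfl⟩ := (par e t ht ht' S).surjective x'
  obtain ⟨g', rfl⟩ := (par e t ht ht' S).surjective y'
  simp only [Equiv.trans_apply, Equiv.prodCongr_symm, Equiv.prodCongr_apply, Prod.map_apply,
    Equiv.symm_apply_apply, rot, Equiv.coe_fn_mk]
  congr 1
  set F : Finset (Nd I) := ((f - f').support ∪ (P (f - f')).support) ∪
    ((g - g').support ∪ (P (g - g')).support) ∪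
    ((UU (blk S) f g - UU (blk S) f' g').support ∪
      (P (UU (blk S) f g - UU (blk S) f' g')).support) ∪
    ((VV (blk S) f g - VV (blk S) f' g').support ∪
      (P (VV (blk S) f g - VV (blk S) f' g')).support) with hF
  have e1 : (f - f').support ∪ (P (f - f')).support ⊆ F :=
    (Finset.subset_union_left.trans Finset.subset_union_left).trans Finset.subset_union_left
  have e2 : (g - g').support ∪ (P (g - g')).support ⊆ F :=
    (Finset.subset_union_right.trans Finset.subset_union_left).trans Finset.subset_union_left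
  have e3 : (UU (blk S) f g - UU (blk S) f' g').support ∪
      (P (UU (blk S) f g - UU (blk S) f' g')).support ⊆ F :=
    Finset.subset_union_right.trans Finset.subset_union_left
  have e4 : (VV (blk S) f g - VV (blk S) f' g').support ∪
      (P (VV (blk S) f g - VV (blk S) f' g')).support ⊆ F :=
    Finset.subset_union_right
  rw [par_dist e t ht ht' S f f' F e1, par_dist e t ht ht' S g g' F e2,
    par_dist e t ht ht' _ _ _ F e3, par_dist e t ht ht' _ _ _ F e4,
    ← Finset.sum_add_distrib, ← Finset.sum_add_distrib]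
  refine Finset.sum_congr rfl fun s _ => ?_
  rw [UU_sub, VV_sub, P_UU, P_VV]
  simp only [UU_apply, VV_apply, ww, Set.mem_univ, if_true]
  by_cases h : s.1 ∈ S
  · have h' : s ∈ blk S := h
    simp only [h, h', if_true]
  · have h' : s ∉ blk S := h
    simp only [h, h', if_false]
    push_cast
    ring

lemma subset_of_isometric [WellFoundedLT I] (e : Nd I ≃ I) (t : ℝ) (ht : 0 < t)
    (ht' : Transcendental ℚ t) (S T : Set I) (h : Isometric (Sp e t S) (Sp e t T)) : S ⊆ T := by
  obtain ⟨ψ, hψ⟩ := h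
  have hi := ht'.irrational
  set f0 : (Nd I →₀ ℚ) → (Nd I →₀ ℚ) :=
    fun x => (par e t ht hi T).symm (ψ (par e t ht hi S x)) with hf0
  have hd : ∀ x y, pol (ww T) (f0 x - f0 y) = pol (ww S) (x - y) := by
    intro x y
    refine (transcendental_iff_injective.1 ht') ?_
    rw [← par_dist_pol e t ht hi, ← par_dist_pol e t ht hi]
    simp only [hf0, Equiv.apply_symm_apply]
    rw [hψ]
  have hsurj0 : Function.Surjective f0 :=
    (par e t ht hi T).symm.surjective.comp (ψ.surjective.comp (par e t ht hi S).surjective)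
  intro a ha
  by_contra haT
  obtain ⟨r, hr⟩ := rigid (ww S) (ww T) (ww_pos S) (ww_pos T) (fun x => f0 x - f0 0)
    (fun y => by
      obtain ⟨x, hx⟩ := hsurj0 (y + f0 0)
      exact ⟨x, by simp only [hx, add_sub_cancel_right]⟩)
    (sub_self _) (fun x y => by rw [sub_sub_sub_cancel_right]; exact hd x y) a
  rw [ww, ww, if_pos ha, if_neg haT] at hr
  exact rat_sq_ne_half r hr

end embed

lemma exists_transcendental : ∃ t : ℝ, 0 < t ∧ Transcendental ℚ t := by
  have h : Transcendental ℚ (liouvilleNumber 2) := by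
    intro h
    exact transcendental_liouvilleNumber (le_refl 2)
      ((IsFractionRing.isAlgebraic_iff ℤ ℚ ℝ).2 (by exact_mod_cast h))
  refine ⟨liouvilleNumber 2 ^ 2, ?_, h.pow two_pos⟩
  have : liouvilleNumber 2 ≠ 0 := by
    intro h0
    rw [h0] at h
    exact h isAlgebraic_zero
  positivity

lemma isometric_symm {A B : Type} [MetricSpace A] [MetricSpace B] (h : Isometric A B) :
    Isometric B A := by
  obtain ⟨φ, h⟩ := h
  refine ⟨φ.symm, fun x y => ?_⟩
  have := h (φ.symm x) (φ.symm y)
  simpa using this.symm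



lemma clause_one (I : Type) (hI : Infinite I) : ∃ A : Set I → AddSubgroup (L2 I),
      (∀ S, #(A S) = #I) ∧ (∀ S, Dense (A S : Set (L2 I))) ∧
      (∀ S T, SquaresIsometric (A S) (A T)) ∧
      (∀ S T, S ≠ T → ¬ Isometric (A S) (A T)) := by
  obtain ⟨_, _⟩ := exists_wellFoundedLT (α := I)
  have hcard : #(Nd I) = #I := by
    rw [mk_prod, lift_id, lift_id, mk_list_eq_mk, mul_eq_self (aleph0_le_mk I)]
  obtain ⟨e⟩ := Cardinal.eq.1 hcard
  obtain ⟨t, ht, ht'⟩ := exists_transcendental
  refine ⟨Sp e t, fun S => ?_, fun S => emb_dense e _ (fac_ne t ht S) t, fun S T => ?_,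
    fun S T hST h => ?_⟩
  · rw [← Cardinal.mk_congr (par e t ht ht'.irrational S), mk_finsupp_of_infinite, Cardinal.mkRat,
      hcard]
    exact max_eq_left (aleph0_le_mk I)
  · exact (squares_base e t ht ht'.irrational S).trans (squares_base e t ht ht'.irrational T).symm
  · exact hST (Set.Subset.antisymm (subset_of_isometric e t ht ht' S T h)
      (subset_of_isometric e t ht ht' T S (isometric_symm h)))

/-- an isometry of squares that is a product map -/
lemma isometric_of_product {B C : Type} [MetricSpace B] [MetricSpace C] (ψ : B × B ≃ C × C)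
    (hψ : ∀ p q : B × B, dist (ψ p).1 (ψ q).1 ^ 2 + dist (ψ p).2 (ψ q).2 ^ 2 =
      dist p.1 q.1 ^ 2 + dist p.2 q.2 ^ 2)
    (h1 : ∀ b b', (ψ (b, b')).1 = (ψ (b, b)).1)
    (h2 : ∀ b b', (ψ (b, b')).2 = (ψ (b', b')).1) : Isometric B C := by
  set f : B → C := fun b => (ψ (b, b)).1 with hf
  have hd : ∀ x y, dist (f x) (f y) = dist x y := by
    intro x y
    have h := hψ (x, x) (y, y)
    rw [h2 x x, h2 y y] at h
    simp only at h
    have h3 : dist (f x) (f y) ^ 2 = dist x y ^ 2 := by simp only [hf]; linarith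
    exact (sq_eq_sq₀ dist_nonneg dist_nonneg).1 h3
  have hinj : Function.Injective f := by
    intro x y h
    rw [← dist_eq_zero, ← hd, h, dist_self]
  have hsurj : Function.Surjective f := by
    intro c
    refine ⟨(ψ.symm (c, c)).1, ?_⟩
    have h3 : ψ (ψ.symm (c, c)) = (c, c) := ψ.apply_symm_apply _
    have h4 := h1 (ψ.symm (c, c)).1 (ψ.symm (c, c)).2
    simp only [hf]
    rw [← h4, Prod.mk.eta, h3]
  exact ⟨Equiv.ofBijective f ⟨hinj, hsurj⟩, hd⟩

lemma continuous_of_sq {B C : Type} [MetricSpace B] [MetricSpace C] (ψ : B × B → C × C)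
    (hψ : ∀ p q : B × B, dist (ψ p).1 (ψ q).1 ^ 2 + dist (ψ p).2 (ψ q).2 ^ 2 =
      dist p.1 q.1 ^ 2 + dist p.2 q.2 ^ 2) : Continuous ψ := by
  have : LipschitzWith 2 ψ := by
    refine LipschitzWith.of_dist_le_mul fun p q => ?_
    have h := hψ p q
    have e1 : dist p.1 q.1 ≤ dist p q := le_max_left _ _
    have e2 : dist p.2 q.2 ≤ dist p q := le_max_right _ _
    have e3 : dist p.1 q.1 ^ 2 ≤ dist p q ^ 2 := pow_le_pow_left₀ dist_nonneg e1 2
    have e4 : dist p.2 q.2 ^ 2 ≤ dist p q ^ 2 := pow_le_pow_left₀ dist_nonneg e2 2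
    rw [Prod.dist_eq]
    refine max_le ?_ ?_
    · refine abs_le_of_sq_le_sq' ?_ (by positivity) |>.2
      simp only [NNReal.coe_ofNat]
      nlinarith [sq_nonneg (dist (ψ p).2 (ψ q).2), sq_nonneg (dist p q)]
    · refine abs_le_of_sq_le_sq' ?_ (by positivity) |>.2
      simp only [NNReal.coe_ofNat]
      nlinarith [sq_nonneg (dist (ψ p).1 (ψ q).1), sq_nonneg (dist p q)]
  exact this.continuous

lemma exists_dense_of_anti {Y Z : Type} [MetricSpace Y] [MetricSpace Z] [Nonempty Y]
    (κ : Cardinal.{0}) (hκ : ℵ₀ ≤ κ) (D : Set Z) (hD : Dense D) (hc : #D ≤ κ) (j : Y → Z)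
    (hj : ∀ y y', dist y y' ≤ 2 * dist (j y) (j y')) : ∃ d : κ.out → Y, DenseRange d := by
  classical
  obtain ⟨y0⟩ := ‹Nonempty Y›
  have hle : #(D × ℕ) ≤ #κ.out := by
    rw [mk_out, mk_prod, lift_id, lift_id, mk_nat]
    exact (mul_le_mul' hc hκ).trans (mul_eq_self hκ).le
  obtain ⟨e⟩ := (Cardinal.le_def _ _).1 hle
  have hDne : Nonempty (D × ℕ) := by
    obtain ⟨d, hd⟩ := hD.nonempty_iff.2 ⟨j y0⟩
    exact ⟨(⟨d, hd⟩, 0)⟩
  set g : κ.out → D × ℕ := Function.invFun e with hg
  have hgs : Function.Surjective g := Function.invFun_surjective e.injective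
  set c : D × ℕ → Y := fun p =>
    if h : ∃ y, dist (j y) p.1 < 1 / ((p.2 : ℝ) + 1) then h.choose else y0 with hcdef
  refine ⟨c ∘ g, ?_⟩
  rw [Metric.denseRange_iff]
  intro y r hr
  obtain ⟨n, hn⟩ := exists_nat_one_div_lt (show (0 : ℝ) < r / 4 by positivity)
  obtain ⟨d, hd, hdist⟩ := Metric.dense_iff.1 hD (j y) (1 / ((n : ℝ) + 1)) (by positivity)
  rw [Metric.mem_ball, dist_comm] at hd
  have hex : ∃ y, dist (j y) d < 1 / ((n : ℝ) + 1) := ⟨y, hd⟩
  obtain ⟨k, hk⟩ := hgs (⟨d, hdist⟩, n)
  refine ⟨k, ?_⟩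
  have h1 : dist (j (c (g k))) d < 1 / ((n : ℝ) + 1) := by
    rw [hk]
    simp only [hcdef]
    rw [dif_pos hex]
    exact hex.choose_spec
  have h2 : dist (j y) (j (c (g k))) < 2 * (1 / ((n : ℝ) + 1)) := by
    have := dist_triangle_right (j y) (j (c (g k))) d
    linarith
  have h3 := hj y (c (g k))
  simp only [Function.comp_apply]
  linarith

lemma card_of_dense (X : Type) [MetricSpace X] (κ : Cardinal.{0}) (hκ : ℵ₀ ≤ κ) (D : Set X)
    (hD : Dense D) (hc : #D ≤ κ) : #X ≤ 2 ^ κ := by
  have hinj : Function.Injective (fun (x : X) (d : D) => dist x d) := by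
    intro x y h
    have h1 : ∀ z : X, dist x z = dist y z := by
      have := hD.denseRange_val.equalizer
        (g := fun z => dist x z) (h := fun z => dist y z) (by fun_prop) (by fun_prop) h
      exact fun z => congrFun this z
    have := h1 y
    rwa [dist_self, dist_eq_zero] at this
  calc #X ≤ #(D → ℝ) := mk_le_of_injective hinj
    _ = 𝔠 ^ #D := by simp [mk_real]
    _ ≤ 𝔠 ^ κ := power_le_power_left continuum_ne_zero hc
    _ = 2 ^ κ := by rw [← two_power_aleph0, ← power_mul, aleph0_mul_eq hκ]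

lemma density_bound (κ : Cardinal.{0}) (hκ : ℵ₀ ≤ κ) (X : Type) [MetricSpace X] (D : Set X)
    (hD : Dense D) (hDc : #D ≤ κ)
    (S : Type) (A : S → Type) [∀ s, MetricSpace (A s)] (h : ∀ s, SquaresIsometric X (A s))
    (hne : ∀ s t, s ≠ t → ¬ Isometric (A s) (A t)) : #S ≤ 2 ^ κ := by
  have h' : ∀ s, SquaresIsometric (A s) X := fun s => (h s).symm
  choose φ hφ using h'
  have hsq : ∀ s, ∀ p q : A s × A s,
      dist (φ s p).1 (φ s q).1 ^ 2 + dist (φ s p).2 (φ s q).2 ^ 2 =
      dist p.1 q.1 ^ 2 + dist p.2 q.2 ^ 2 := fun s p q => sq_eq_of_sqrt (hφ s p q)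
  rcases isEmpty_or_nonempty X with hX | ⟨⟨x0⟩⟩
  · have : Subsingleton S := by
      refine ⟨fun s t => ?_⟩
      by_contra hst
      have hE : ∀ s, IsEmpty (A s) := fun s => ⟨fun a => hX.elim (φ s (a, a)).1⟩
      have := hE s
      have := hE t
      exact hne s t hst ⟨Equiv.equivOfIsEmpty _ _, fun x => isEmptyElim x⟩
    exact (Cardinal.le_one_iff_subsingleton.2 this).trans
      (Cardinal.one_le_iff_ne_zero.2 (power_ne_zero _ two_ne_zero))
  have hN : ∀ s, Nonempty (A s) := fun s => ⟨((φ s).symm (x0, x0)).1⟩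
  have hDD : #(D ×ˢ D : Set (X × X)) ≤ κ := by
    rw [mk_setProd]
    exact (mul_le_mul' hDc hDc).trans (mul_eq_self hκ).le
  have hden : ∀ s, ∃ d : κ.out → A s, DenseRange d := by
    intro s
    obtain ⟨b⟩ := hN s
    refine exists_dense_of_anti κ hκ (D ×ˢ D) (hD.prod hD) hDD (fun a => φ s (a, b)) ?_
    intro p q
    have h := hsq s (p, b) (q, b)
    simp only [dist_self] at h
    have e1 : dist (φ s (p, b)).1 (φ s (q, b)).1 ≤ dist (φ s (p, b)) (φ s (q, b)) :=
      le_max_left _ _
    have e2 : dist (φ s (p, b)).2 (φ s (q, b)).2 ≤ dist (φ s (p, b)) (φ s (q, b)) :=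
      le_max_right _ _
    have e3 := pow_le_pow_left₀ dist_nonneg e1 2
    have e4 := pow_le_pow_left₀ dist_nonneg e2 2
    refine abs_le_of_sq_le_sq' ?_ (by positivity) |>.2
    nlinarith [sq_nonneg (dist (φ s (p, b)) (φ s (q, b)))]
  choose x hx using hden
  let F : S → (κ.out × κ.out → X × X) := fun s n => φ s (x s n.1, x s n.2)
  have hF : Function.Injective F := by
    intro s t hst
    by_contra hne'
    apply hne s t hne'
    set ψ : A s × A s ≃ A t × A t := (φ s).trans (φ t).symm with hψd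
    have hψ : ∀ p q : A s × A s, dist (ψ p).1 (ψ q).1 ^ 2 + dist (ψ p).2 (ψ q).2 ^ 2 =
        dist p.1 q.1 ^ 2 + dist p.2 q.2 ^ 2 := by
      intro p q
      rw [← hsq s p q, ← hsq t (ψ p) (ψ q)]
      simp [hψd]
    have hv : ∀ n m, ψ (x s n, x s m) = (x t n, x t m) := by
      intro n m
      have := congrFun hst (n, m)
      simp only [F] at this
      rw [hψd, Equiv.trans_apply, Equiv.symm_apply_eq]
      exact this
    have hcont := continuous_of_sq ψ hψ
    have hdense : DenseRange (Prod.map (x s) (x s)) := (hx s).prodMap (hx s)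
    refine isometric_of_product ψ hψ ?_ ?_
    · have := hdense.equalizer (g := fun p => (ψ p).1) (h := fun p => (ψ (p.1, p.1)).1)
        (by fun_prop) (by fun_prop) (by
          funext ⟨n, m⟩
          simp only [Function.comp_apply, Prod.map_apply, hv])
      intro b b'
      exact congrFun this (b, b')
    · have := hdense.equalizer (g := fun p => (ψ p).2) (h := fun p => (ψ (p.2, p.2)).1)
        (by fun_prop) (by fun_prop) (by
          funext ⟨n, m⟩
          simp only [Function.comp_apply, Prod.map_apply, hv])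
      intro b b'
      exact congrFun this (b, b')
  have hc := card_of_dense X κ hκ D hD hDc
  calc #S ≤ #(κ.out × κ.out → X × X) := mk_le_of_injective hF
    _ = (#X * #X) ^ (κ * κ) := by simp
    _ ≤ (2 ^ κ * 2 ^ κ) ^ (κ * κ) := power_le_power_right (mul_le_mul' hc hc)
    _ = 2 ^ κ := by rw [mul_eq_self hκ, ← power_add, add_eq_self hκ, ← power_mul, mul_eq_self hκ]

/-- **The number of square roots of a metric space.** Squares carry the Euclidean product metric.
(1) For every infinite set `I` there are `2 ^ #I` dense additive subgroups `A S`, `S ⊆ I`, of the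
Hilbert space `ℓ²(I)`, each with `#I` elements, whose squares are pairwise isometric, while no two
of them are isometric.
(2) `2 ^ κ` is the largest possible number, for every infinite cardinal `κ`: if `X` has a dense
subset with at most `κ` elements, then at most `2 ^ κ` metric spaces, up to isometry, have a square
isometric to the square of `X`.

Idea of (1): `I` is well-ordered and the orthogonal summand with index `a` is the rational vector
space on the nodes `(a, l)`, where `l` is a list, with the norm whose square is the sum over the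
nodes of `t ^ (3 * level) * (x + t * P x) ^ 2`. Here `P` is the parent operator of the tree of
strictly descending sequences and `t` is transcendental. The metric determines the levels and `P`,
hence the rank of vectors, hence the line of the root of every block; and a block may be scaled by
`√2` without changing the square. -/
theorem result :
    (∀ I : Type, Infinite I → ∃ A : Set I → AddSubgroup (L2 I),
      (∀ S, #(A S) = #I) ∧ (∀ S, Dense (A S : Set (L2 I))) ∧
      (∀ S T, SquaresIsometric (A S) (A T)) ∧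
      (∀ S T, S ≠ T → ¬ Isometric (A S) (A T))) ∧
    (∀ κ : Cardinal.{0}, ℵ₀ ≤ κ → ∀ (X : Type) [MetricSpace X] (D : Set X), Dense D → #D ≤ κ →
      ∀ (S : Type) (A : S → Type) [∀ s, MetricSpace (A s)], (∀ s, SquaresIsometric X (A s)) →
      (∀ s t, s ≠ t → ¬ Isometric (A s) (A t)) → #S ≤ 2 ^ κ) :=
  ⟨fun I hI => clause_one I hI,
    fun κ hκ X _ D hD hDc S A _ h1 h2 => density_bound κ hκ X D hD hDc S A h1 h2⟩

end Pool.Agent.Results.MP_1231ed_gt.NumberOfSquareRoots
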